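import Pool.Agent.Y571.NC.Stm

/-!
# Project NC: the number of elements which are products of few generators (helper171, after the
starting file `Pool/Agent/H632R3/Dih.lean`)
-/

set_option autoImplicit false

namespace Pool.Agent.Y171.NC

section

variable {G A Q : Type} [Group G] [CommGroup A] {k : ℕ} (w : Q × Fin k → A)
  (step : Q → Fin k → Q)

/-- The letters of the word with the states. -/
def enc : Q → List (Fin k) → Multiset (Q × Fin k)
  | _, [] => 0
  | q, i :: l => (q, i) ::ₘ enc (step q i) l

/-- The final state. -/
def fin : Q → List (Fin k) → Q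
  | q, [] => q
  | q, i :: l => fin (step q i) l

lemma enc_card (q : Q) (l : List (Fin k)) : (enc step q l).card = l.length := by
  induction l generalizing q with
  | nil => simp [enc]
  | cons i l ih => simp [enc, ih]

lemma prod_eq (ι : A →* G) (Z : Fin k → G) (o : Q → G)
    (hw : ∀ q i, o q * Z i = ι (w (q, i)) * o (step q i)) (q : Q) (l : List (Fin k)) :
    o q * (l.map Z).prod = ι ((enc step q l).map w).prod * o (fin step q l) := by
  induction l generalizing q with
  | nil => simp [enc, fin]
  | cons i l ih =>
    simp only [List.map_cons, List.prod_cons, enc, fin, Multiset.map_cons, Multiset.prod_cons,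
      map_mul]
    rw [← mul_assoc, hw, mul_assoc, ih, mul_assoc]

/-- Padded letters. -/
def wo : Option (Q × Fin k) → A
  | none => 1
  | some p => w p

lemma reach_aux [Fintype Q] (ι : A →* G) (Z : Fin k → G) (o : Q → G)
    (hw : ∀ q i, o q * Z i = ι (w (q, i)) * o (step q i)) (q₀ : Q) (T : ℕ) : ∃ R : Finset G,
      R.card ≤ Fintype.card Q * (Fintype.card Q * k + T).choose T ∧
      ∀ T' ≤ T, ∀ v : Fin T' → Fin k, (List.ofFn fun j => Z (v j)).prod ∈ R := by
  classical
  refine ⟨Finset.univ.image (fun p : Q × Sym (Option (Q × Fin k)) T =>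
    (o q₀)⁻¹ * (ι (p.2.1.map (wo w)).prod * o p.1)), ?_, ?_⟩
  · refine Finset.card_image_le.trans ?_
    rw [Finset.card_univ, Fintype.card_prod, Sym.card_sym_eq_choose]
    simp only [Fintype.card_option, Fintype.card_prod, Fintype.card_fin]
    refine le_of_eq ?_
    congr 2
    omega
  · intro T' hT v
    have h1 : (List.ofFn fun j => Z (v j)) = (List.ofFn v).map Z := by
      rw [List.map_ofFn]; rfl
    rw [h1]
    set l := List.ofFn v with hl
    have hc : (enc step q₀ l).card = T' := by rw [enc_card, hl, List.length_ofFn]
    refine Finset.mem_image.mpr ⟨(fin step q₀ l,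
      ⟨(enc step q₀ l).map some + Multiset.replicate (T - T') none, ?_⟩), Finset.mem_univ _, ?_⟩
    · rw [Multiset.card_add, Multiset.card_map, Multiset.card_replicate, hc]; omega
    · have h2 := prod_eq w step ι Z o hw q₀ l
      have h3 : (((enc step q₀ l).map some + Multiset.replicate (T - T') none).map
          (wo w)).prod = ((enc step q₀ l).map w).prod := by
        simp only [Multiset.map_add, Multiset.prod_add, Multiset.map_map, Multiset.map_replicate,
          Multiset.prod_replicate]
        have e1 : (wo w ∘ some) = w := rfl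
        have e2 : wo w none = 1 := rfl
        rw [e1, e2, one_pow, mul_one]
      show (o q₀)⁻¹ * (ι (((enc step q₀ l).map some + Multiset.replicate (T - T') none).map
          (wo w)).prod * o (fin step q₀ l)) = (l.map Z).prod
      rw [h3, ← h2, inv_mul_cancel_left]

end

theorem reach : Pool.Agent.Y571.NC.S_REACH := by
  classical
  intro G _ _ B hB k Z T
  let _ : CommGroup B :=
    { (inferInstance : Group B) with mul_comm := fun a b => Subtype.ext (hB a a.2 b b.2) }
  let ι : B →* G := { toFun := fun b => b, map_one' := rfl, map_mul' := fun _ _ => rfl }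
  let Q : Type := Quotient (QuotientGroup.rightRel B)
  have hQ : Fintype Q := Fintype.ofFinite _
  let cls : G → Q := fun g => Quotient.mk (QuotientGroup.rightRel B) g
  let o : Q → G := fun q => Quotient.out q
  have ho : ∀ g : G, g * (o (cls g))⁻¹ ∈ B := by
    intro g
    have h1 : (QuotientGroup.rightRel B) (o (cls g)) g := Quotient.mk_out (s := QuotientGroup.rightRel B) g
    exact QuotientGroup.rightRel_apply.1 h1
  let step : Q → Fin k → Q := fun q i => cls (o q * Z i)
  let w : Q × Fin k → B := fun p => ⟨o p.1 * Z p.2 * (o (cls (o p.1 * Z p.2)))⁻¹, ho _⟩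
  have hw : ∀ q i, o q * Z i = ι (w (q, i)) * o (step q i) := by
    intro q i
    show o q * Z i = (o q * Z i * (o (cls (o q * Z i)))⁻¹) * o (cls (o q * Z i))
    rw [inv_mul_cancel_right]
  obtain ⟨R, h1, h2⟩ := reach_aux w step ι Z o hw (cls 1) T
  have hc : Fintype.card Q = B.index := by
    have h3 : Fintype.card Q = Nat.card (G ⧸ B) := by
      rw [← Nat.card_eq_fintype_card]
      exact Nat.card_congr (QuotientGroup.quotientRightRelEquivQuotientLeftRel B)
    rw [h3]
    rfl
  rw [hc] at h1
  exact ⟨R, h1, h2⟩

end Pool.Agent.Y171.NC
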